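import Pool.Agent.Helper65.BQ.St

/-!
# Project BQ, module CON: nondegenerate connected subsets
-/

set_option autoImplicit false

open Set Topology TopologicalSpace

namespace Pool.Agent.Helper29.BQ

open Pool.Agent.Helper9.SID Pool.Agent.Helper65.BQ

/-- level sets are partitions -/
theorem par_level {K : Type} [TopologicalSpace K] {g : K → ℝ} (hg : Continuous g) {c : ℝ}
    (h0 : 0 < c) (h1 : c < 1) : Par g {x | g x = c} := by
  refine ⟨isClosed_eq hg continuous_const, {x | g x < c}, {x | c < g x},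
    isOpen_lt hg continuous_const, isOpen_lt continuous_const hg, ?_, ?_, ?_, ?_⟩
  · rw [Set.disjoint_left]
    intro x (hx : g x < c) (hx2 : c < g x)
    exact lt_asymm hx hx2
  · intro x hx
    exact lt_of_le_of_lt hx h0
  · intro x hx
    exact lt_of_lt_of_le h1 hx
  · ext x
    simp only [mem_compl_iff, mem_ofPred_eq, mem_union]
    exact ne_iff_lt_or_gt

/-- a level set of the first function keeps the property Big -/
theorem big_level {K : Type} [TopologicalSpace K] {f : ℕ → K → ℝ} (hf : ∀ k, Continuous (f k))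
    {T : Set K} (hT : IsClosed T) {κ : ℕ → ℕ} (hE : Ess f κ T) {c : ℝ} (h0 : 0 < c) (h1 : c < 1) :
    Big f (T ∩ {x | f (κ 0) x = c}) := by
  refine ⟨hT.inter (isClosed_eq (hf _) continuous_const), fun i => κ (i + 1), ?_⟩
  intro L hL
  obtain ⟨x, hxT, hx⟩ := hE (fun i => Nat.casesOn i {x | f (κ 0) x = c} L) (by
    intro i
    cases i with
    | zero => exact par_level (hf _) h0 h1
    | succ i => exact hL i)
  rw [mem_iInter] at hx
  refine ⟨x, ⟨hxT, hx 0⟩, ?_⟩
  rw [mem_iInter]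
  intro i
  exact hx (i + 1)

theorem pCON (hCAN : StCAN) : StCON := by
  intro K _ _ _ f hf X hX T hT
  obtain ⟨T₀, hT₀, hB, hC⟩ := hCAN K f hf T hT
  obtain ⟨hcl, κ, hE⟩ := hB
  refine ⟨T₀ ∩ X, inter_subset_inter_left X hT₀, ?_, ?_⟩
  · let _ := metrizableSpaceMetric K
    intro U V hU hV hUV hAU hAV
    by_contra hne
    rw [not_nonempty_iff_eq_empty] at hne
    have hdis : ∀ x ∈ T₀ ∩ X, x ∈ U → x ∈ V → False := by
      intro x hx h1 h2
      have : x ∈ (T₀ ∩ X) ∩ (U ∩ V) := ⟨hx, h1, h2⟩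
      rw [hne] at this
      exact this
    have h1 : Disjoint (closure ((T₀ ∩ X) ∩ U)) ((T₀ ∩ X) ∩ V) := by
      rw [Set.disjoint_left]
      intro x hx hx2
      obtain ⟨y, hy1, hy2⟩ := mem_closure_iff.mp hx V hV hx2.2
      exact hdis y hy2.1 hy2.2 hy1
    have h2 : Disjoint ((T₀ ∩ X) ∩ U) (closure ((T₀ ∩ X) ∩ V)) := by
      rw [Set.disjoint_right]
      intro x hx hx2
      obtain ⟨y, hy1, hy2⟩ := mem_closure_iff.mp hx U hU hx2.2
      exact hdis y hy2.1 hy1 hy2.2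
    obtain ⟨G, H, hG, hH, hs, ht, hGH⟩ := separatedNhds_iff_disjoint.mpr
      (completely_normal h1 h2)
    have hun : T₀ = (T₀ \ H) ∪ (T₀ \ G) := by
      ext x
      simp only [mem_union, mem_sdiff]
      constructor
      · intro hx
        by_cases hxH : x ∈ H
        · right
          exact ⟨hx, fun hxG => Set.disjoint_left.mp hGH hxG hxH⟩
        · left
          exact ⟨hx, hxH⟩
      · rintro (hx | hx)
        · exact hx.1
        · exact hx.1
    have hnb : ¬ Big f ((T₀ \ H) ∩ (T₀ \ G)) := by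
      intro hb
      obtain ⟨x, ⟨⟨hx1, hx2⟩, -, hx3⟩, hxX⟩ := hX _ hb
      rcases hUV ⟨hx1, hxX⟩ with h | h
      · exact hx3 (hs ⟨⟨hx1, hxX⟩, h⟩)
      · exact hx2 (ht ⟨⟨hx1, hxX⟩, h⟩)
    rcases hC _ _ (hcl.sdiff hH) (hcl.sdiff hG) hun hnb with h | h
    · obtain ⟨x, hx, hxV⟩ := hAV
      have h3 : x ∈ T₀ \ H := by rw [h]; exact hx.1
      exact h3.2 (ht ⟨hx, hxV⟩)
    · obtain ⟨x, hx, hxU⟩ := hAU
      have h3 : x ∈ T₀ \ G := by rw [h]; exact hx.1
      exact h3.2 (hs ⟨hx, hxU⟩)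
  · obtain ⟨p, ⟨hp1, hp2⟩, hpX⟩ := hX _ (big_level hf hcl hE (c := 1 / 3) (by norm_num) (by norm_num))
    obtain ⟨q, ⟨hq1, hq2⟩, hqX⟩ := hX _ (big_level hf hcl hE (c := 2 / 3) (by norm_num) (by norm_num))
    refine ⟨p, ⟨hp1, hpX⟩, q, ⟨hq1, hqX⟩, ?_⟩
    intro hpq
    have h3 : f (κ 0) p = 1 / 3 := hp2
    have h4 : f (κ 0) q = 2 / 3 := hq2
    rw [hpq, h4] at h3
    norm_num at h3

end Pool.Agent.Helper29.BQ
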